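import Pool.Agent.helper67.RG.Spec

set_option autoImplicit false

namespace Pool.Agent.RG.LZF

open Matrix Polynomial Pool.Agent.GO Pool.Agent.AR

attribute [local instance 100] LieRing.ofAssociativeRing

universe u v w

section tf

variable {F : Type u} [Field F]

/-- the trace free part -/
noncomputable def tf (Y : Matrix (Fin 2) (Fin 2) F) : Matrix (Fin 2) (Fin 2) F :=
  Y - (Y.trace / 2) • (1 : Matrix (Fin 2) (Fin 2) F)

theorem tf_add (Y Y' : Matrix (Fin 2) (Fin 2) F) : tf (Y + Y') = tf Y + tf Y' := by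
  unfold tf
  rw [Matrix.trace_add, add_div, add_smul]
  abel

theorem tf_smul (c : F) (Y : Matrix (Fin 2) (Fin 2) F) : tf (c • Y) = c • tf Y := by
  unfold tf
  rw [Matrix.trace_smul, smul_sub, smul_smul, smul_eq_mul, mul_div_assoc]

theorem tf_one [CharZero F] : tf (1 : Matrix (Fin 2) (Fin 2) F) = 0 := by
  unfold tf
  have : (1 : Matrix (Fin 2) (Fin 2) F).trace / 2 = 1 := by
    rw [Matrix.trace_one]
    simp
  rw [this, one_smul, sub_self]

theorem tf_scal [CharZero F] (Y : Matrix (Fin 2) (Fin 2) F) (c : F) :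
    tf (Y + c • (1 : Matrix (Fin 2) (Fin 2) F)) = tf Y := by
  rw [tf_add, tf_smul, tf_one, smul_zero, add_zero]

theorem tf_eq [CharZero F] (Y Y' : Matrix (Fin 2) (Fin 2) F) (h : IsScal (Y - Y')) :
    tf Y = tf Y' := by
  obtain ⟨c, hc⟩ := h
  have : Y = Y' + c • (1 : Matrix (Fin 2) (Fin 2) F) := by
    rw [← hc]
    abel
  rw [this, tf_scal]

theorem tf_trace [CharZero F] (Y : Matrix (Fin 2) (Fin 2) F) : (tf Y).trace = 0 := by
  unfold tf
  rw [Matrix.trace_sub, Matrix.trace_smul, Matrix.trace_one, smul_eq_mul]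
  simp

theorem tf_of_trace (Y : Matrix (Fin 2) (Fin 2) F) (h : Y.trace = 0) : tf Y = Y := by
  unfold tf
  rw [h, zero_div, zero_smul, sub_zero]

theorem tf_comm (Y Y' : Matrix (Fin 2) (Fin 2) F) :
    tf (Y * Y' - Y' * Y) = tf Y * tf Y' - tf Y' * tf Y := by
  have h : (Y * Y' - Y' * Y).trace = 0 := by
    rw [Matrix.trace_sub, Matrix.trace_mul_comm, sub_self]
  rw [tf_of_trace _ h]
  unfold tf
  simp only [sub_mul, mul_sub, Matrix.smul_mul, Matrix.mul_smul, Matrix.one_mul, Matrix.mul_one]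
  rw [smul_comm (Y.trace / 2)]
  abel

theorem tf_conj (R R' Y : Matrix (Fin 2) (Fin 2) F) (h : R * R' = 1) :
    tf (R * Y * R') = R * tf Y * R' := by
  have h' : R' * R = 1 := mul_eq_one_comm.1 h
  have ht : (R * Y * R').trace = Y.trace := by
    rw [Matrix.trace_mul_comm, ← Matrix.mul_assoc, h', Matrix.one_mul]
  unfold tf
  rw [ht, Matrix.mul_sub, Matrix.sub_mul, Matrix.mul_smul, Matrix.smul_mul, Matrix.mul_one, h]

theorem scal_of_comm (Y : Matrix (Fin 2) (Fin 2) F)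
    (h : ∀ Z : Matrix (Fin 2) (Fin 2) F, Z.trace = 0 → Y * Z = Z * Y) : IsScal Y := by
  have h1 := h !![0, 1; 0, 0] (by simp [Matrix.trace_fin_two])
  have h2 := h !![0, 0; 1, 0] (by simp [Matrix.trace_fin_two])
  have a1 := congrFun (congrFun h1 0) 1
  have a2 := congrFun (congrFun h1 0) 0
  have a3 := congrFun (congrFun h2 0) 0
  simp [Matrix.mul_apply, Fin.sum_univ_two] at a1 a2 a3
  refine ⟨Y 0 0, ?_⟩
  ext i j
  fin_cases i <;> fin_cases j <;> simp [a1, ← a2, a3]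

end tf

section main

variable {F : Type u} {Γ : Type v} {A : Type w} [Field F] [IsAlgClosed F] [CharZero F] [Group Γ]
  [Ring A] [Algebra F A]

theorem key (hFIL : FIL_stmt.{u, v}) (u : Γ →* A) (ρ : Γ →* Matrix (Fin 2) (Fin 2) F) (hρ : SI ρ)
    (τ : A →ₗ[F] A) (hτ : IsTau τ) (L : Submodule F (A × Matrix (Fin 2) (Fin 2) F))
    (hL : IsPair u ρ L) :
    (∀ Z : Matrix (Fin 2) (Fin 2) F, Z.trace = 0 →
      ∃ (x : A) (c : F), (x, Z + c • (1 : Matrix (Fin 2) (Fin 2) F)) ∈ L) ∧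
    ∀ (a : A) (Y : Matrix (Fin 2) (Fin 2) F), (τ a, Y) ∈ L → IsScal Y := by
  set J : Submodule F (Matrix (Fin 2) (Fin 2) F) := L.map (LinearMap.snd F A _) with hJ
  have hmem : ∀ Y, Y ∈ J ↔ ∃ x, (x, Y) ∈ L := by
    intro Y
    rw [hJ, Submodule.mem_map]
    constructor
    · rintro ⟨p, hp, rfl⟩
      exact ⟨p.1, hp⟩
    · rintro ⟨x, hx⟩
      exact ⟨(x, Y), hx, rfl⟩
  have hfil := hFIL ρ hρ J (by
    intro g Y hY
    rw [hmem] at hY ⊢
    obtain ⟨x, hx⟩ := hY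
    exact ⟨_, hL.conj g _ hx⟩) (by
    obtain ⟨p, hp, hns⟩ := hL.ns
    exact ⟨p.2, (hmem _).2 ⟨p.1, hp⟩, hns⟩)
  have h1 : ∀ Z : Matrix (Fin 2) (Fin 2) F, Z.trace = 0 →
      ∃ (x : A) (c : F), (x, Z + c • (1 : Matrix (Fin 2) (Fin 2) F)) ∈ L := by
    intro Z hZ
    obtain ⟨c, hc⟩ := hfil Z hZ
    obtain ⟨x, hx⟩ := (hmem _).1 hc
    exact ⟨x, c, hx⟩
  refine ⟨h1, fun a Y hY => scal_of_comm Y fun Z hZ => ?_⟩
  obtain ⟨x, c, hx⟩ := h1 Z hZ
  have h2 := hL.lie _ hY _ hx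
  have e1 : ((τ a, Y) * (x, Z + c • (1 : Matrix (Fin 2) (Fin 2) F)) -
      (x, Z + c • (1 : Matrix (Fin 2) (Fin 2) F)) * (τ a, Y)) = (0, Y * Z - Z * Y) := by
    refine Prod.ext ?_ ?_
    · show τ a * x - x * τ a = 0
      rw [hτ.central, sub_self]
    · show Y * (Z + c • (1 : Matrix (Fin 2) (Fin 2) F)) -
        (Z + c • (1 : Matrix (Fin 2) (Fin 2) F)) * Y = Y * Z - Z * Y
      rw [Matrix.mul_add, Matrix.add_mul, Matrix.mul_smul, Matrix.smul_mul, Matrix.mul_one,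
        Matrix.one_mul]
      abel
  rw [e1] at h2
  obtain ⟨d, hd⟩ := hL.inj _ h2 rfl
  have hd' : Y * Z - Z * Y = d • (1 : Matrix (Fin 2) (Fin 2) F) := hd
  have ht := congrArg Matrix.trace hd'
  rw [Matrix.trace_sub, Matrix.trace_mul_comm, sub_self, Matrix.trace_smul, Matrix.trace_one,
    smul_eq_mul] at ht
  have hd0 : d = 0 := by
    simp at ht
    exact ht
  rw [hd0, zero_smul, sub_eq_zero] at hd'
  exact hd'

theorem LZF (hFIL : FIL_stmt.{u, v}) : LZF_stmt.{u, v, w} := by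
  intro F Γ A _ _ _ _ _ _ u ρ hρ τ hτ L hL
  obtain ⟨hsurj, hscal⟩ := key hFIL u ρ hρ τ hτ L hL
  have hug : ∀ g, u g * u g⁻¹ = 1 := fun g => by rw [← map_mul, mul_inv_cancel, map_one]
  have hug' : ∀ g, u g⁻¹ * u g = 1 := fun g => by rw [← map_mul, inv_mul_cancel, map_one]
  have hρg : ∀ g, ρ g * ρ g⁻¹ = 1 := fun g => by rw [← map_mul, mul_inv_cancel, map_one]
  have hwd : ∀ (x a a' : A) (Y Y' : Matrix (Fin 2) (Fin 2) F), (x + τ a, Y) ∈ L →
      (x + τ a', Y') ∈ L → tf Y = tf Y' := by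
    intro x a a' Y Y' h h'
    refine tf_eq Y Y' (hscal (a - a') _ ?_)
    have h2 := L.sub_mem h h'
    have e : ((x + τ a, Y) - (x + τ a', Y') : A × Matrix (Fin 2) (Fin 2) F) =
        (τ (a - a'), Y - Y') := by
      refine Prod.ext ?_ rfl
      show x + τ a - (x + τ a') = τ (a - a')
      rw [map_sub]
      abel
    rwa [e] at h2
  have hadd : ∀ (x y a b : A) (Y Y' : Matrix (Fin 2) (Fin 2) F), (x + τ a, Y) ∈ L →
      (y + τ b, Y') ∈ L → (x + y + τ (a + b), Y + Y') ∈ L := by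
    intro x y a b Y Y' h h'
    have h2 := L.add_mem h h'
    have e : ((x + τ a, Y) + (y + τ b, Y') : A × Matrix (Fin 2) (Fin 2) F) =
        (x + y + τ (a + b), Y + Y') := by
      refine Prod.ext ?_ rfl
      show x + τ a + (y + τ b) = x + y + τ (a + b)
      rw [map_add]
      abel
    rwa [e] at h2
  have hsmul : ∀ (c : F) (x a : A) (Y : Matrix (Fin 2) (Fin 2) F), (x + τ a, Y) ∈ L →
      (c • x + τ (c • a), c • Y) ∈ L := by
    intro c x a Y h
    have h2 := L.smul_mem c h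
    have e : (c • (x + τ a, Y) : A × Matrix (Fin 2) (Fin 2) F) = (c • x + τ (c • a), c • Y) := by
      refine Prod.ext ?_ rfl
      show c • (x + τ a) = c • x + τ (c • a)
      rw [map_smul, smul_add]
    rwa [e] at h2
  have hlie : ∀ (x y a b : A) (Y Y' : Matrix (Fin 2) (Fin 2) F), (x + τ a, Y) ∈ L →
      (y + τ b, Y') ∈ L → (x * y - y * x + τ 0, Y * Y' - Y' * Y) ∈ L := by
    intro x y a b Y Y' h h'
    have h2 := hL.lie _ h _ h'
    have e : ((x + τ a, Y) * (y + τ b, Y') - (y + τ b, Y') * (x + τ a, Y) :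
        A × Matrix (Fin 2) (Fin 2) F) = (x * y - y * x + τ 0, Y * Y' - Y' * Y) := by
      refine Prod.ext ?_ rfl
      show (x + τ a) * (y + τ b) - (y + τ b) * (x + τ a) = x * y - y * x + τ 0
      rw [map_zero, add_zero, add_mul, add_mul, mul_add, mul_add, mul_add, mul_add,
        hτ.central a y, hτ.central b x, hτ.central a (τ b)]
      abel
    rwa [e] at h2
  -- the Lie algebra
  let L₀ : LieSubalgebra F A :=
    { carrier := {x | τ x = 0 ∧ ∃ a Y, (x + τ a, Y) ∈ L}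
      add_mem' := by
        rintro x y ⟨hx, a, Y, h⟩ ⟨hy, b, Y', h'⟩
        exact ⟨by rw [map_add, hx, hy, add_zero], _, _, hadd _ _ _ _ _ _ h h'⟩
      zero_mem' := ⟨map_zero τ, 0, 0, by
        rw [map_zero, add_zero]
        exact L.zero_mem⟩
      smul_mem' := by
        rintro c x ⟨hx, a, Y, h⟩
        exact ⟨by rw [map_smul, hx, smul_zero], _, _, hsmul c _ _ _ h⟩
      lie_mem' := by
        rintro x y ⟨hx, a, Y, h⟩ ⟨hy, b, Y', h'⟩
        refine ⟨?_, _, _, hlie _ _ _ _ _ _ h h'⟩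
        show τ (x * y - y * x) = 0
        rw [map_sub, hτ.comm, sub_self] }
  have hmem : ∀ x : A, x ∈ L₀ ↔ τ x = 0 ∧ ∃ a Y, (x + τ a, Y) ∈ L := fun x => Iff.rfl
  have hex : ∀ x : L₀, ∃ a Y, (x.1 + τ a, Y) ∈ L := fun x => ((hmem x.1).1 x.2).2
  choose fa fY hf using hex
  have hspec : ∀ (x : L₀) (a : A) (Y : Matrix (Fin 2) (Fin 2) F), (x.1 + τ a, Y) ∈ L →
      tf (fY x) = tf Y := fun x a Y h => hwd x.1 _ _ _ _ (hf x) h
  let π : L₀ →ₗ⁅F⁆ Matrix (Fin 2) (Fin 2) F :=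
    { toFun := fun x => tf (fY x)
      map_add' := by
        intro x y
        rw [hspec (x + y) _ _ (hadd _ _ _ _ _ _ (hf x) (hf y)), tf_add]
      map_smul' := by
        intro c x
        rw [hspec (c • x) _ _ (hsmul c _ _ _ (hf x)), tf_smul]
        rfl
      map_lie' := by
        intro x y
        rw [hspec ⁅x, y⁆ _ _ (hlie _ _ _ _ _ _ (hf x) (hf y)), tf_comm]
        rfl }
  have hπ : ∀ x : L₀, π x = tf (fY x) := fun x => rfl
  refine ⟨L₀, π, fun x hx => ((hmem x).1 hx).1, ?_, ?_, ?_, ?_⟩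
  · intro Z
    constructor
    · intro hZ
      obtain ⟨x, c, hx⟩ := hsurj Z hZ
      have hx0 : (x - τ x + τ x, Z + c • (1 : Matrix (Fin 2) (Fin 2) F)) ∈ L := by
        rw [sub_add_cancel]
        exact hx
      have hm : x - τ x ∈ L₀ := (hmem _).2 ⟨by rw [map_sub, hτ.idem, sub_self], _, _, hx0⟩
      refine ⟨⟨x - τ x, hm⟩, ?_⟩
      rw [hπ, hspec ⟨x - τ x, hm⟩ _ _ hx0, tf_scal, tf_of_trace Z hZ]
    · rintro ⟨x, rfl⟩
      rw [hπ]
      exact tf_trace _
  · intro g x hx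
    rw [hmem] at hx ⊢
    obtain ⟨h0, a, Y, h⟩ := hx
    refine ⟨?_, a, ρ g * Y * ρ g⁻¹, ?_⟩
    · rw [hτ.comm, ← mul_assoc, hug', one_mul, h0]
    · have h2 := hL.conj g _ h
      have e : u g * (x + τ a) * u g⁻¹ = u g * x * u g⁻¹ + τ a := by
        rw [mul_add, add_mul, ← hτ.central a (u g), mul_assoc (τ a), hug, mul_one]
      simp only [e] at h2
      exact h2
  · intro g x x' hxx'
    have h2 := hL.conj g _ (hf x)
    have e : u g * (x.1 + τ (fa x)) * u g⁻¹ = x'.1 + τ (fa x) := by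
      rw [hxx', mul_add, add_mul, ← hτ.central _ (u g), mul_assoc (τ (fa x)), hug, mul_one]
    simp only [e] at h2
    rw [hπ, hπ, hspec x' _ _ h2, tf_conj _ _ _ (hρg g)]
  · intro x
    refine ⟨fa x, (fY x).trace / 2, ?_⟩
    have e : π x + ((fY x).trace / 2) • (1 : Matrix (Fin 2) (Fin 2) F) = fY x := by
      rw [hπ]
      unfold tf
      abel
    rw [e]
    exact hf x

end main

end Pool.Agent.RG.LZF
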